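import Pool.Agent.Lib.MP_939ffc_anE.Defs


open MeasureTheory Set Metric Filter Topology
open scoped ENNReal NNReal Pointwise
open Pool.Agent.Lib.MP_deb14e_an Pool.Agent.MPdeb14eM

namespace BM939

/-- PROOF: change of variables (`lintegral_image_eq_lintegral_abs_det_fderiv_mul`, the derivative of `L` is `L`). -/
theorem lintegral_lin {n : ℕ} (L : E n ≃ₗ[ℝ] E n) {F : Set (E n)} (hF : MeasurableSet F)
    {f : E n → ℝ≥0∞} (hf : Measurable f) :
    ∫⁻ x in L '' F, f x = ENNReal.ofReal (adet L) * ∫⁻ x in F, f (L x) := by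
  have h1 : ∀ x ∈ F, HasFDerivWithinAt (fun y => L y)
      (L.toContinuousLinearEquiv : E n →L[ℝ] E n) F x := fun x _ =>
    (L.toContinuousLinearEquiv : E n →L[ℝ] E n).hasFDerivAt.hasFDerivWithinAt
  have h2 := lintegral_image_eq_lintegral_abs_det_fderiv_mul volume hF h1
    (L.injective.injOn) f
  have h3 : |((L.toContinuousLinearEquiv : E n →L[ℝ] E n)).det| = adet L := rfl
  rw [← h3, ← lintegral_const_mul' _ _ ENNReal.ofReal_ne_top]
  exact h2

theorem measurableSet_cubeCone {n : ℕ} (i : Fin n) : MeasurableSet (cubeCone i) := by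
  have hc : ∀ j : Fin n, Continuous fun y : E n => y j := fun j => by fun_prop
  have h1 : MeasurableSet {y : E n | 0 < y i} := (isOpen_lt continuous_const (hc i)).measurableSet
  have h2 : MeasurableSet {y : E n | y i < 1} := (isOpen_lt (hc i) continuous_const).measurableSet
  have h3 : MeasurableSet {y : E n | ∀ j, |y j| ≤ y i} := by
    have h4 : {y : E n | ∀ j, |y j| ≤ y i} = ⋂ j, {y : E n | |y j| ≤ y i} := by
      ext y
      simp
    rw [h4]
    exact MeasurableSet.iInter fun j => (isClosed_le ((hc j).abs) (hc i)).measurableSet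
  exact h1.inter (h2.inter h3)

end BM939
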