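import Pool.Agent.Lib.MP_939ffc_anE.Defs
import Pool.Agent.Lib.MP_939ffc_anE.Lin

open MeasureTheory Set Metric Filter Topology
open scoped ENNReal NNReal Pointwise
open Pool.Agent.Lib.MP_deb14e_an Pool.Agent.MPdeb14eM

namespace BM939

/-- The reflection that changes the sign of the `l`-th coordinate. -/
private noncomputable def cubeCrossR {n : ℕ} (l : Fin n) : E n ≃ₗᵢ[ℝ] E n :=
  LinearIsometryEquiv.piLpCongrRight 2 (fun k => if k = l then LinearIsometryEquiv.neg ℝ else
    LinearIsometryEquiv.refl ℝ ℝ)

private theorem cubeCrossR_apply {n : ℕ} (l : Fin n) (y : E n) (k : Fin n) :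
    cubeCrossR l y k = if k = l then - y k else y k := by
  unfold cubeCrossR
  rw [LinearIsometryEquiv.piLpCongrRight_apply]
  show (if k = l then LinearIsometryEquiv.neg ℝ else LinearIsometryEquiv.refl ℝ ℝ) (y k) = _
  split_ifs <;> simp

private theorem cubeCrossR_pre {n : ℕ} {l i : Fin n} (hl : l ≠ i) :
    (cubeCrossR l) ⁻¹' (cubeCone i) = cubeCone i := by
  ext y
  have h1 : ∀ k, |cubeCrossR l y k| = |y k| := by
    intro k
    rw [cubeCrossR_apply]
    split_ifs
    · exact abs_neg _
    · rfl
  have h2 : cubeCrossR l y i = y i := by rw [cubeCrossR_apply, if_neg hl.symm]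
  show (0 < cubeCrossR l y i ∧ cubeCrossR l y i < 1 ∧ ∀ j, |cubeCrossR l y j| ≤ cubeCrossR l y i) ↔
    (0 < y i ∧ y i < 1 ∧ ∀ j, |y j| ≤ y i)
  simp only [h1, h2]

private theorem cubeCross_int {n : ℕ} (i : Fin n) {f : E n → ℝ} (hf : Continuous f) :
    IntegrableOn f (cubeCone i) := by
  have hK : IsCompact (closure (cube n)) := (convexDomain_cube n).2.1.isCompact_closure
  refine (hf.continuousOn.integrableOn_compact hK).mono_set (Subset.trans ?_ subset_closure)
  intro y hy k
  exact (hy.2.2 k).trans_lt hy.2.1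

private theorem cubeCross_zero {n : ℕ} (i : Fin n) {j k : Fin n} (hjk : j ≠ k) :
    ∫ y in cubeCone i, y j * y k = 0 := by
  have key : ∀ l : Fin n, l ≠ i → (∀ y : E n, cubeCrossR l y j * cubeCrossR l y k = - (y j * y k)) →
      ∫ y in cubeCone i, y j * y k = 0 := by
    intro l hl hneg
    have h1 := (cubeCrossR l).measurePreserving.setIntegral_preimage_emb
      (cubeCrossR l).toHomeomorph.measurableEmbedding (fun y : E n => y j * y k) (cubeCone i)
    rw [cubeCrossR_pre hl] at h1
    simp only [hneg, integral_neg] at h1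
    linarith
  by_cases hj : j = i
  · refine key k (fun h => hjk (hj.trans h.symm)) fun y => ?_
    rw [cubeCrossR_apply, cubeCrossR_apply, if_neg hjk, if_pos rfl]
    ring
  · refine key j hj fun y => ?_
    rw [cubeCrossR_apply, cubeCrossR_apply, if_pos rfl, if_neg hjk.symm]
    ring

/-- PROOF: `‖L y‖ ^ 2 = ∑ j k, y j * y k * ⟨L e_j, L e_k⟩`; for `j ≠ k` the integral of `y j * y k` over the cone
vanishes: at least one of `j, k` is different from `i`, and changing the sign of that coordinate is a measure
preserving bijection of the cone. (The cone is bounded, everything is integrable.) -/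
theorem norm_cubeCone {n : ℕ} (L : E n ≃ₗ[ℝ] E n) (i : Fin n) :
    ∫ y in cubeCone i, ‖L y‖ ^ 2 = ∑ j, ‖L (ev j)‖ ^ 2 * ∫ y in cubeCone i, (y j) ^ 2 := by
  have hexp : ∀ y : E n, ‖L y‖ ^ 2 =
      ∑ j, ∑ k, inner ℝ (L (ev j)) (L (ev k)) * (y j * y k) := by
    intro y
    have hy : y = ∑ j, y j • ev j := by
      have := (EuclideanSpace.basisFun (Fin n) ℝ).sum_repr y
      simpa [ev] using this.symm
    have hL : L y = ∑ j, y j • L (ev j) := by
      conv_lhs => rw [hy]
      rw [map_sum]
      simp only [map_smul]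
    rw [← real_inner_self_eq_norm_sq, hL, sum_inner]
    refine Finset.sum_congr rfl fun j _ => ?_
    rw [inner_sum]
    refine Finset.sum_congr rfl fun k _ => ?_
    rw [real_inner_smul_left, real_inner_smul_right]
    ring
  have hcont : ∀ j k : Fin n, Continuous fun y : E n => y j * y k := by
    intro j k
    fun_prop
  have hint : ∀ j k : Fin n, IntegrableOn (fun y : E n =>
      inner ℝ (L (ev j)) (L (ev k)) * (y j * y k)) (cubeCone i) := by
    intro j k
    exact cubeCross_int i (continuous_const.mul (hcont j k))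
  rw [show (fun y : E n => ‖L y‖ ^ 2) = fun y : E n =>
    ∑ j, ∑ k, inner ℝ (L (ev j)) (L (ev k)) * (y j * y k) from funext hexp]
  rw [integral_finsetSum _ fun j _ => integrable_finsetSum _ fun k _ => hint j k]
  refine Finset.sum_congr rfl fun j _ => ?_
  rw [integral_finsetSum _ fun k _ => hint j k, Finset.sum_eq_single j]
  · have e : ∀ y : E n, y j * y j = (y j) ^ 2 := fun y => by ring
    rw [integral_const_mul, real_inner_self_eq_norm_sq]
    simp only [e]
  · intro k _ hk
    rw [integral_const_mul, cubeCross_zero i hk.symm, mul_zero]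
  · intro h
    exact absurd (Finset.mem_univ j) h

end BM939
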