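import Pool.Agent.Lib.MP_939ffc_anE.Defs
import Pool.Agent.Lib.MP_939ffc_anE.Lin

open MeasureTheory Set Metric Filter Topology
open scoped ENNReal NNReal Pointwise
open Pool.Agent.Lib.MP_deb14e_an Pool.Agent.MPdeb14eM

namespace BM939

/-- The coordinates `(y i, (y (i.succAbove l)) l)`. -/
private noncomputable def cvE {m : ℕ} (i : Fin (m + 1)) : E (m + 1) ≃ᵐ ℝ × (Fin m → ℝ) :=
  (MeasurableEquiv.toLp 2 (Fin (m + 1) → ℝ)).symm.trans (MeasurableEquiv.piFinSuccAbove (fun _ => ℝ) i)

private theorem cvE_mp {m : ℕ} (i : Fin (m + 1)) : MeasurePreserving (cvE i) volume volume :=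
  (volume_preserving_piFinSuccAbove (fun _ => ℝ) i).comp
    (EuclideanSpace.volume_preserving_symm_measurableEquiv_toLp (Fin (m + 1)))

private theorem cvE_fst {m : ℕ} (i : Fin (m + 1)) (y : E (m + 1)) : (cvE i y).1 = y i := rfl

private theorem cvE_snd {m : ℕ} (i : Fin (m + 1)) (y : E (m + 1)) (l : Fin m) :
    (cvE i y).2 l = y (i.succAbove l) := rfl

private def cvS (m : ℕ) : Set (ℝ × (Fin m → ℝ)) := {p | 0 < p.1 ∧ p.1 < 1 ∧ ∀ l, |p.2 l| ≤ p.1}

private def cvK (m : ℕ) : Set (ℝ × (Fin m → ℝ)) :=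
  Icc (0 : ℝ) 1 ×ˢ Icc (fun _ => (-1 : ℝ)) (fun _ => (1 : ℝ))

private theorem cvK_compact (m : ℕ) : IsCompact (cvK m) := isCompact_Icc.prod isCompact_Icc

private theorem cvS_sub (m : ℕ) : cvS m ⊆ cvK m := by
  rintro ⟨t, z⟩ ⟨h1, h2, h3⟩
  refine ⟨⟨h1.le, h2.le⟩, fun l => ?_, fun l => ?_⟩
  · have := (abs_le.mp (h3 l)).1
    show (-1 : ℝ) ≤ z l
    simp only at h2 this
    linarith
  · have := (abs_le.mp (h3 l)).2
    show z l ≤ (1 : ℝ)
    simp only at h2 this
    linarith

private theorem cvS_meas (m : ℕ) : MeasurableSet (cvS m) := by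
  have h1 : cvS m = {p | 0 < p.1} ∩ ({p | p.1 < 1} ∩ ⋂ l, {p | |p.2 l| ≤ p.1}) := by
    ext p
    simp [cvS]
  rw [h1]
  refine (measurableSet_lt measurable_const measurable_fst).inter
    ((measurableSet_lt measurable_fst measurable_const).inter (MeasurableSet.iInter fun l => ?_))
  refine measurableSet_le ?_ measurable_fst
  exact ((measurable_pi_apply l).comp measurable_snd).abs

private theorem cv_preimage {m : ℕ} (i : Fin (m + 1)) : cubeCone i = cvE i ⁻¹' cvS m := by
  ext y
  constructor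
  · rintro ⟨h1, h2, h3⟩
    exact ⟨h1, h2, fun l => h3 _⟩
  · rintro ⟨h1, h2, h3⟩
    rw [cvE_fst] at h1 h2
    refine ⟨h1, h2, fun j => ?_⟩
    rcases Fin.eq_self_or_eq_succAbove i j with h | ⟨l, h⟩
    · rw [h, abs_of_pos h1]
    · rw [h]
      exact h3 l

private theorem cv_key {m : ℕ} (i : Fin (m + 1)) (a : ℕ) (h : Fin m → ℝ → ℝ)
    (hc : ∀ l, Continuous (h l)) :
    ∫ y in cubeCone i, (y i) ^ a * ∏ l, h l (y (i.succAbove l)) =
      ∫ t in Ioo (0 : ℝ) 1, t ^ a * ∏ l, ∫ x in Icc (-t) t, h l x := by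
  set g : ℝ × (Fin m → ℝ) → ℝ := fun p => p.1 ^ a * ∏ l, h l (p.2 l) with hg
  have hgc : Continuous g := by
    refine (continuous_fst.pow a).mul (continuous_finsetProd _ fun l _ => ?_)
    exact (hc l).comp ((continuous_apply l).comp continuous_snd)
  have h1 : ∫ y in cubeCone i, (y i) ^ a * ∏ l, h l (y (i.succAbove l)) = ∫ p in cvS m, g p := by
    rw [cv_preimage]
    exact (cvE_mp i).setIntegral_preimage_emb (cvE i).measurableEmbedding g (cvS m)
  have h2 : IntegrableOn g (cvS m) :=
    (hgc.continuousOn.integrableOn_compact (cvK_compact m)).mono_set (cvS_sub m)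
  have h3 : Integrable ((cvS m).indicator g) := h2.integrable_indicator (cvS_meas m)
  rw [h1, ← integral_indicator (cvS_meas m), ← integral_indicator measurableSet_Ioo]
  rw [Measure.volume_eq_prod] at h3 ⊢
  rw [integral_prod _ h3]
  congr 1
  funext t
  by_cases ht : t ∈ Ioo (0 : ℝ) 1
  · rw [indicator_of_mem ht]
    have h4 : (fun z : Fin m → ℝ => (cvS m).indicator g (t, z)) =
        fun z => t ^ a * ∏ l, (Icc (-t) t).indicator (h l) (z l) := by
      funext z
      by_cases hz : ∀ l, |z l| ≤ t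
      · rw [indicator_of_mem (show (t, z) ∈ cvS m from ⟨ht.1, ht.2, hz⟩)]
        simp only [hg]
        congr 1
        refine Finset.prod_congr rfl fun l _ => ?_
        rw [indicator_of_mem (show z l ∈ Icc (-t) t from abs_le.mp (hz l))]
      · rw [indicator_of_notMem (fun hm : (t, z) ∈ cvS m => hz hm.2.2)]
        push Not at hz
        obtain ⟨l, hl⟩ := hz
        rw [Finset.prod_eq_zero (Finset.mem_univ l), mul_zero]
        refine indicator_of_notMem (fun hm => ?_) _
        exact absurd (abs_le.mpr hm) (not_le.mpr hl)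
    rw [h4, integral_const_mul, integral_fintype_prod_volume_eq_prod]
    congr 1
    refine Finset.prod_congr rfl fun l _ => ?_
    exact integral_indicator measurableSet_Icc
  · rw [indicator_of_notMem ht]
    have h4 : (fun z : Fin m → ℝ => (cvS m).indicator g (t, z)) = fun _ => 0 := by
      funext z
      exact indicator_of_notMem (fun hm => ht ⟨hm.1, hm.2.1⟩) _
    rw [h4, integral_zero]

private theorem cv_one {t : ℝ} (ht : t ∈ Ioo (0 : ℝ) 1) : ∫ _x in Icc (-t) t, (1 : ℝ) = 2 * t := by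
  rw [setIntegral_const, measureReal_def, Real.volume_Icc, ENNReal.toReal_ofReal (by linarith [ht.1])]
  simp
  ring

private theorem cv_two {t : ℝ} (ht : t ∈ Ioo (0 : ℝ) 1) :
    ∫ x in Icc (-t) t, x ^ 2 = 2 * t ^ 3 / 3 := by
  rw [integral_Icc_eq_integral_Ioc, ← intervalIntegral.integral_of_le (by linarith [ht.1]),
    integral_pow]
  push_cast
  ring

private theorem cv_pow (n : ℕ) : ∫ t in Ioo (0 : ℝ) 1, t ^ n = 1 / ((n : ℝ) + 1) := by
  rw [← integral_Ioc_eq_integral_Ioo, ← intervalIntegral.integral_of_le zero_le_one, integral_pow]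
  simp

/-- PROOF: Fubini in the coordinate `i` (`∫_0^1 (2 t)^m dt = 2^m / (m + 1)`). A convenient way: the measurable
equivalence of `E (m + 1)` with `ℝ × (Fin m → ℝ)` (`MeasurableEquiv.piFinSuccAbove`, `volume_preserving`). -/
theorem vol_cubeCone {m : ℕ} (i : Fin (m + 1)) :
    volume (cubeCone i) = ENNReal.ofReal (2 ^ m / (m + 1)) := by
  have hfin : volume (cubeCone i) ≠ ⊤ := by
    rw [cv_preimage, (cvE_mp i).measure_preimage_equiv]
    exact ((measure_mono (cvS_sub m)).trans_lt (cvK_compact m).measure_lt_top).ne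
  have h1 := cv_key i 0 (fun _ _ => 1) (fun _ => continuous_const)
  simp only [pow_zero, Finset.prod_const_one, mul_one, one_mul] at h1
  rw [setIntegral_const, smul_eq_mul, mul_one] at h1
  have h2 : ∫ t in Ioo (0 : ℝ) 1, ∏ _l : Fin m, ∫ _x in Icc (-t) t, (1 : ℝ) =
      ∫ t in Ioo (0 : ℝ) 1, 2 ^ m * t ^ m := by
    refine setIntegral_congr_fun measurableSet_Ioo fun t ht => ?_
    simp only [cv_one ht, Finset.prod_const, Finset.card_univ, Fintype.card_fin]
    rw [mul_pow]
  rw [h2, integral_const_mul, cv_pow] at h1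
  rw [← ENNReal.ofReal_toReal hfin]
  congr 1
  rw [measureReal_def] at h1
  rw [h1]
  ring

/-- PROOF: Fubini in the coordinate `i`: `∫_0^1 t^2 (2 t)^m dt` and `∫_0^1 (2 t)^(m - 1) (2 t^3 / 3) dt`. -/
theorem sq_cubeCone {m : ℕ} (i j : Fin (m + 1)) :
    ∫ y in cubeCone i, (y j) ^ 2 = if j = i then 2 ^ m / ((m : ℝ) + 3) else 2 ^ m / (3 * ((m : ℝ) + 3)) := by
  rcases Fin.eq_self_or_eq_succAbove i j with h | ⟨l, h⟩
  · subst h
    rw [if_pos rfl]
    have h1 := cv_key j 2 (fun _ _ => 1) (fun _ => continuous_const)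
    simp only [Finset.prod_const_one, mul_one] at h1
    rw [h1]
    have h2 : ∫ t in Ioo (0 : ℝ) 1, t ^ 2 * ∏ _l : Fin m, ∫ _x in Icc (-t) t, (1 : ℝ) =
        ∫ t in Ioo (0 : ℝ) 1, 2 ^ m * t ^ (m + 2) := by
      refine setIntegral_congr_fun measurableSet_Ioo fun t ht => ?_
      simp only [cv_one ht, Finset.prod_const, Finset.card_univ, Fintype.card_fin]
      ring
    rw [h2, integral_const_mul, cv_pow]
    push_cast
    rw [mul_one_div]
    congr 1
    ring
  · subst h
    rw [if_neg (Fin.succAbove_ne i l)]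
    have h1 := cv_key i 0 (fun q x => if q = l then x ^ 2 else 1) (fun q => by
      by_cases hq : q = l
      · simp only [hq, if_true]
        fun_prop
      · simp only [hq, if_false]
        fun_prop)
    simp only [pow_zero, one_mul, Finset.prod_ite_eq', Finset.mem_univ, if_true] at h1
    rw [h1]
    have h2 : ∫ t in Ioo (0 : ℝ) 1, ∏ q : Fin m, ∫ x in Icc (-t) t, (if q = l then x ^ 2 else 1) =
        ∫ t in Ioo (0 : ℝ) 1, 2 ^ m / 3 * t ^ (m + 2) := by
      refine setIntegral_congr_fun measurableSet_Ioo fun t ht => ?_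
      have h3 : ∀ q : Fin m, ∫ x in Icc (-t) t, (if q = l then x ^ 2 else 1) =
          2 * t * (if q = l then t ^ 2 / 3 else 1) := by
        intro q
        by_cases hq : q = l
        · simp only [hq, if_true]
          rw [cv_two ht]
          ring
        · simp only [hq, if_false]
          rw [cv_one ht]
          ring
      simp only [h3]
      rw [Finset.prod_mul_distrib, Finset.prod_ite_eq' Finset.univ l, if_pos (Finset.mem_univ l),
        Finset.prod_const, Finset.card_univ, Fintype.card_fin]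
      ring
    rw [h2, integral_const_mul, cv_pow]
    push_cast
    field_simp
    ring

end BM939
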