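import Pool.Agent.Lib.MP_939ffc_anD.Cube

/-!
# MP_939ffc_an: parallelepipeds: auxiliary notions
-/

open MeasureTheory Set Metric Filter Topology
open scoped ENNReal NNReal Pointwise
open Pool.Agent.Lib.MP_deb14e_an Pool.Agent.MPdeb14eM

namespace BM939

/-- The `i`-th unit vector. -/
noncomputable def ev {n : ℕ} (i : Fin n) : E n := EuclideanSpace.single i (1 : ℝ)

/-- The vector `β i = L^(-T) e_i`, so that `⟨β i, L y⟩ = y i`. -/
noncomputable def bet {n : ℕ} (L : E n ≃ₗ[ℝ] E n) (i : Fin n) : E n :=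
  LinearMap.adjoint (L.symm : E n →ₗ[ℝ] E n) (ev i)

/-- The open cone on the facet `y i = 1` of the cube. -/
def cubeCone {n : ℕ} (i : Fin n) : Set (E n) := {y | 0 < y i ∧ y i < 1 ∧ ∀ j, |y j| ≤ y i}

/-- `|det L|`. -/
noncomputable def adet {n : ℕ} (L : E n ≃ₗ[ℝ] E n) : ℝ := |LinearMap.det (L : E n →ₗ[ℝ] E n)|

end BM939
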