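import Pool.Agent.Lib.MP_939ffc_anE.Defs


open MeasureTheory Set Metric Filter Topology
open scoped ENNReal NNReal Pointwise
open Pool.Agent.Lib.MP_deb14e_an Pool.Agent.MPdeb14eM

namespace BM939

theorem bet_inner {n : ℕ} (L : E n ≃ₗ[ℝ] E n) (i : Fin n) (y : E n) : inner ℝ (bet L i) (L y) = y i := by
  unfold bet ev
  rw [LinearMap.adjoint_inner_left]
  simp [EuclideanSpace.inner_single_left]

private theorem had_hadamard {n : ℕ} (B : Fin n → E n) :
    |((EuclideanSpace.basisFun (Fin n) ℝ).toBasis.toMatrix B).det| ≤ ∏ j, ‖B j‖ := by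
  have : Fact (Module.finrank ℝ (E n) = n) := ⟨by simp⟩
  have h := (EuclideanSpace.basisFun (Fin n) ℝ).toBasis.orientation.abs_volumeForm_apply_le B
  rw [Orientation.volumeForm_robust _ (EuclideanSpace.basisFun (Fin n) ℝ) rfl] at h
  rwa [Module.Basis.det_apply] at h

private theorem had_mul {n : ℕ} (B : Fin n → E n) (L : E n ≃ₗ[ℝ] E n) :
    (Matrix.of fun j k => inner ℝ (B j) (L (ev k))).det =
      ((EuclideanSpace.basisFun (Fin n) ℝ).toBasis.toMatrix B).det *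
        LinearMap.det (L : E n →ₗ[ℝ] E n) := by
  rw [← LinearMap.det_toMatrix (EuclideanSpace.basisFun (Fin n) ℝ).toBasis (L : E n →ₗ[ℝ] E n),
    ← Matrix.det_transpose ((EuclideanSpace.basisFun (Fin n) ℝ).toBasis.toMatrix B), ← Matrix.det_mul]
  congr 1
  ext j k
  rw [Matrix.mul_apply, Matrix.of_apply]
  simp only [Matrix.transpose_apply, LinearMap.toMatrix_apply, Module.Basis.toMatrix_apply, ev,
    PiLp.inner_apply]
  refine Finset.sum_congr rfl fun l _ => ?_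
  simp [mul_comm]

/-- PROOF: with `w = L e_i / ‖L e_i‖` let `B` be the matrix (family of vectors) `β` with `β i` replaced by `w`. Then
`(⟨B j, L e_k⟩)_{j k}` is the identity except in row `i`, where the diagonal entry is `⟨w, L e_i⟩ = ‖L e_i‖`, so
`‖L e_i‖ = |det B| * |det L|`, and Hadamard's inequality (`Orientation.abs_volumeForm_apply_le` or
`Matrix`-version) gives `|det B| ≤ ‖w‖ * ∏ j ≠ i, ‖β j‖`. -/
theorem had1 {n : ℕ} (L : E n ≃ₗ[ℝ] E n) (i : Fin n) :
    ‖L (ev i)‖ ≤ adet L * ∏ j ∈ Finset.univ.erase i, ‖bet L j‖ := by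
  have hne : L (ev i) ≠ 0 := by
    intro h
    rw [LinearEquiv.map_eq_zero_iff] at h
    have h1 := congrArg (fun x : E n => x i) h
    simp [ev] at h1
  have hpos : 0 < ‖L (ev i)‖ := norm_pos_iff.2 hne
  set w : E n := (‖L (ev i)‖)⁻¹ • L (ev i) with hw
  have hwn : ‖w‖ = 1 := by
    rw [hw, norm_smul, norm_inv, norm_norm, inv_mul_cancel₀ hpos.ne']
  set B : Fin n → E n := Function.update (bet L) i w with hB
  have h1 := had_hadamard B
  have h2 := had_mul B L
  have h3 : (Matrix.of fun j k => inner ℝ (B j) (L (ev k)) : Matrix (Fin n) (Fin n) ℝ) =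
      (1 : Matrix (Fin n) (Fin n) ℝ).updateRow i (fun k => inner ℝ w (L (ev k))) := by
    ext j k
    rw [Matrix.of_apply, Matrix.updateRow_apply]
    split_ifs with hj
    · rw [hj, hB, Function.update_self]
    · rw [hB, Function.update_of_ne hj, bet_inner, Matrix.one_apply]
      simp only [ev, PiLp.single_apply]
  have h4 : (Matrix.of fun j k => inner ℝ (B j) (L (ev k)) : Matrix (Fin n) (Fin n) ℝ).det =
      ‖L (ev i)‖ := by
    rw [h3]
    have h5 : ((1 : Matrix (Fin n) (Fin n) ℝ).updateRow i (fun k => inner ℝ w (L (ev k)))).det =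
        inner ℝ w (L (ev i)) := by
      rw [← Matrix.cramer_transpose_apply, Matrix.transpose_one, Matrix.cramer_one]
      rfl
    rw [h5, hw, inner_smul_left, real_inner_self_eq_norm_sq]
    simp only [conj_trivial]
    field_simp
  rw [h4] at h2
  have h6 : ∏ j, ‖B j‖ = ∏ j ∈ Finset.univ.erase i, ‖bet L j‖ := by
    rw [← Finset.mul_prod_erase Finset.univ _ (Finset.mem_univ i)]
    rw [hB, Function.update_self, hwn, one_mul]
    refine Finset.prod_congr rfl fun j hj => ?_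
    rw [Function.update_of_ne (Finset.ne_of_mem_erase hj)]
  rw [h6] at h1
  calc ‖L (ev i)‖ = |‖L (ev i)‖| := (abs_norm _).symm
    _ = |((EuclideanSpace.basisFun (Fin n) ℝ).toBasis.toMatrix B).det| * adet L := by
        rw [h2, abs_mul]; rfl
    _ ≤ (∏ j ∈ Finset.univ.erase i, ‖bet L j‖) * adet L :=
        mul_le_mul_of_nonneg_right h1 (abs_nonneg _)
    _ = _ := mul_comm _ _

/-- PROOF: Hadamard's inequality for `β`, whose determinant is `1 / det L`; or from `had1`: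
`1 = ⟨β i, L e_i⟩ ≤ ‖β i‖ * ‖L e_i‖`. -/
theorem had2 {n : ℕ} (hn : 0 < n) (L : E n ≃ₗ[ℝ] E n) : 1 ≤ adet L * ∏ j, ‖bet L j‖ := by
  have h1 := had1 L ⟨0, hn⟩
  have h2 : (1 : ℝ) ≤ ‖bet L ⟨0, hn⟩‖ * ‖L (ev ⟨0, hn⟩)‖ := by
    have h3 := bet_inner L ⟨0, hn⟩ (ev ⟨0, hn⟩)
    have h4 : (ev (⟨0, hn⟩ : Fin n)) (⟨0, hn⟩ : Fin n) = 1 := by simp [ev]
    rw [h4] at h3
    rw [← h3]
    exact real_inner_le_norm _ _
  calc (1 : ℝ) ≤ ‖bet L ⟨0, hn⟩‖ * ‖L (ev ⟨0, hn⟩)‖ := h2
    _ ≤ ‖bet L ⟨0, hn⟩‖ * (adet L * ∏ j ∈ Finset.univ.erase ⟨0, hn⟩, ‖bet L j‖) :=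
        mul_le_mul_of_nonneg_left h1 (norm_nonneg _)
    _ = adet L * ∏ j, ‖bet L j‖ := by
        rw [← Finset.mul_prod_erase Finset.univ _ (Finset.mem_univ (⟨0, hn⟩ : Fin n))]
        ring
end BM939
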