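import Pool.Agent.Lib.MP_939ffc_anD.Ineq

/-!
# MP_939ffc_an: the real inequality for parallelepipeds
-/

namespace BM939

private theorem RealE_exp {m : ℕ} (hm : 2 ≤ m) :
    (m + 1) ^ 2 - 1 = (m + 1 - 2) * (m + 1 + 1) + 1 + (m + 1) := by
  obtain ⟨l, rfl⟩ : ∃ l, m = l + 2 := ⟨m - 2, by omega⟩
  have h1 : l + 2 + 1 - 2 = l + 1 := by omega
  rw [h1]
  have h2 : (l + 2 + 1) ^ 2 = ((l + 1) * (l + 2 + 1 + 1) + 1 + (l + 2 + 1)) + 1 := by ring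
  rw [h2, Nat.add_sub_cancel]

private theorem RealE_cheb {m : ℕ} {b : Fin (m + 1) → ℝ} (hb : ∀ i, 0 < b i) :
    ((m : ℝ) + 1) * ∑ i, (b i)⁻¹ ≤ (∑ i, b i) * ∑ i, (b i)⁻¹ ^ 2 := by
  have h0 : ((m : ℝ) + 1) * ∑ i, (b i)⁻¹ = ∑ i, ∑ j : Fin (m + 1), (b i)⁻¹ := by
    rw [Finset.mul_sum]
    refine Finset.sum_congr rfl fun i _ => ?_
    rw [Finset.sum_const, Finset.card_univ, Fintype.card_fin, nsmul_eq_mul]
    push_cast
    ring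
  have h1 : (∑ i, b i) * ∑ i, (b i)⁻¹ ^ 2 = ∑ i, ∑ j, b j * (b i)⁻¹ ^ 2 := by
    rw [Finset.sum_mul_sum, Finset.sum_comm]
  have h2 : ∑ i, ∑ j : Fin (m + 1), (b i)⁻¹ = ∑ i, ∑ j : Fin (m + 1), (b j)⁻¹ := Finset.sum_comm
  have h3 : ∑ i, ∑ j, b j * (b i)⁻¹ ^ 2 = ∑ i, ∑ j, b i * (b j)⁻¹ ^ 2 := Finset.sum_comm
  have key : ∀ i j : Fin (m + 1), (b i)⁻¹ + (b j)⁻¹ ≤ b j * (b i)⁻¹ ^ 2 + b i * (b j)⁻¹ ^ 2 := by
    intro i j
    have hi := hb i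
    have hj := hb j
    have e : b j * (b i)⁻¹ ^ 2 + b i * (b j)⁻¹ ^ 2 - ((b i)⁻¹ + (b j)⁻¹) =
        (b i + b j) * (b i - b j) ^ 2 / (b i ^ 2 * b j ^ 2) := by
      field_simp
      ring
    have h4 : 0 ≤ (b i + b j) * (b i - b j) ^ 2 / (b i ^ 2 * b j ^ 2) := by positivity
    linarith
  have h5 : ∑ i, ∑ j, ((b i)⁻¹ + (b j)⁻¹) ≤ ∑ i, ∑ j, (b j * (b i)⁻¹ ^ 2 + b i * (b j)⁻¹ ^ 2) :=
    Finset.sum_le_sum fun i _ => Finset.sum_le_sum fun j _ => key i j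
  simp only [Finset.sum_add_distrib] at h5
  rw [h0, h1]
  linarith

private theorem RealE_main {m : ℕ} (hm : 2 ≤ m) {D : ℝ} (hD : 0 < D) {b α : Fin (m + 1) → ℝ}
    (hb : ∀ i, 0 < b i) (hα : ∀ i, 0 ≤ α i) (h1 : ∀ i, α i ≤ D * ∏ j ∈ Finset.univ.erase i, b j)
    (h2 : 1 ≤ D * ∏ j, b j) :
    ∑ i, b i * (2 / 3 * α i ^ 2 + (∑ j, α j ^ 2) / 3) ≤
      (((m : ℝ) + 1) * (m + 3) / 3) * (D ^ (m + 1) * ((∑ i, b i) / ((m : ℝ) + 1)) ^ ((m + 1) ^ 2 - 1)) := by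
  set R := D * ∏ j, b j with hR
  have hR0 : 0 < R := lt_of_lt_of_le one_pos h2
  set a : Fin (m + 1) → ℝ := fun i => (b i)⁻¹ with ha
  have ha0 : ∀ i, 0 < a i := fun i => inv_pos.2 (hb i)
  have hn0 : (0 : ℝ) < (m : ℝ) + 1 := by positivity
  have hle : ∀ i, α i ^ 2 ≤ R ^ 2 * a i ^ 2 := by
    intro i
    have h3 : D * ∏ j ∈ Finset.univ.erase i, b j = R * a i := by
      rw [hR, ha, ← Finset.prod_erase_mul Finset.univ b (Finset.mem_univ i)]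
      have := (hb i).ne'
      field_simp
    have h4 := h1 i
    rw [h3] at h4
    rw [← mul_pow]
    exact pow_le_pow_left₀ (hα i) h4 2
  have hsum : ∑ j, α j ^ 2 ≤ R ^ 2 * ∑ j, a j ^ 2 := by
    rw [Finset.mul_sum]
    exact Finset.sum_le_sum fun j _ => hle j
  have hB : 0 < ∑ i, b i := Finset.sum_pos (fun i _ => hb i) Finset.univ_nonempty
  have hA2 : 0 ≤ ∑ i, a i ^ 2 := Finset.sum_nonneg fun i _ => sq_nonneg _
  have step1 : ∑ i, b i * (2 / 3 * α i ^ 2 + (∑ j, α j ^ 2) / 3) ≤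
      R ^ 2 * ((2 / 3) * ∑ i, a i + (∑ i, b i) * (∑ i, a i ^ 2) / 3) := by
    have h3 : ∀ i, b i * (2 / 3 * α i ^ 2 + (∑ j, α j ^ 2) / 3) ≤
        R ^ 2 * ((2 / 3) * a i + b i * (∑ i, a i ^ 2) / 3) := by
      intro i
      have e1 : b i * a i ^ 2 = a i := by
        rw [ha]
        have := (hb i).ne'
        field_simp
      have h4 : b i * (2 / 3 * α i ^ 2 + (∑ j, α j ^ 2) / 3) ≤
          b i * (2 / 3 * (R ^ 2 * a i ^ 2) + (R ^ 2 * ∑ j, a j ^ 2) / 3) := by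
        refine mul_le_mul_of_nonneg_left ?_ (hb i).le
        have := hle i
        linarith
      refine h4.trans_eq ?_
      calc b i * (2 / 3 * (R ^ 2 * a i ^ 2) + (R ^ 2 * ∑ j, a j ^ 2) / 3)
          = R ^ 2 * ((2 / 3) * (b i * a i ^ 2) + b i * (∑ i, a i ^ 2) / 3) := by ring
        _ = _ := by rw [e1]
    refine (Finset.sum_le_sum fun i _ => h3 i).trans_eq ?_
    rw [← Finset.mul_sum, Finset.sum_add_distrib, ← Finset.mul_sum, ← Finset.sum_div, ← Finset.sum_mul]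
  have hcheb := RealE_cheb hb
  have step2 : (2 / 3) * ∑ i, a i + (∑ i, b i) * (∑ i, a i ^ 2) / 3 ≤
      (((m : ℝ) + 1) * (m + 3) / 3) * (((∑ i, b i) / ((m : ℝ) + 1)) * ((∑ i, a i ^ 2) / ((m : ℝ) + 1))) := by
    have h3 : ∑ i, a i ≤ ((∑ i, b i) * ∑ i, a i ^ 2) / ((m : ℝ) + 1) := by
      rw [le_div_iff₀ hn0, mul_comm]
      exact hcheb
    have e1 : (((m : ℝ) + 1) * (m + 3) / 3) *
        (((∑ i, b i) / ((m : ℝ) + 1)) * ((∑ i, a i ^ 2) / ((m : ℝ) + 1))) =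
        (2 / 3) * (((∑ i, b i) * ∑ i, a i ^ 2) / ((m : ℝ) + 1)) + (∑ i, b i) * (∑ i, a i ^ 2) / 3 := by
      field_simp
      ring
    rw [e1]
    linarith
  have hstar := star_le (n := m + 1) (by omega) ha0
  have emb : mb a = (∑ i, b i) / ((m : ℝ) + 1) := by
    unfold mb
    rw [ha]
    simp only [inv_inv]
    push_cast
    rfl
  have ema : ma a = (∑ i, a i ^ 2) / ((m : ℝ) + 1) := by
    unfold ma
    push_cast
    rfl
  have hmq : (∑ i, b i) / ((m : ℝ) + 1) ≤ mq a := by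
    unfold mq
    refine Real.le_sqrt_of_sq_le ?_
    have h3 : (∑ i, b i) ^ 2 ≤ ((m : ℝ) + 1) * ∑ i, b i ^ 2 := by
      have := sq_sum_le_card_mul_sum_sq (s := (Finset.univ : Finset (Fin (m + 1)))) (f := b)
      rw [Finset.card_univ, Fintype.card_fin] at this
      push_cast at this
      exact this
    have h4 : ∑ i, (a i)⁻¹ ^ 2 = ∑ i, b i ^ 2 := by
      rw [ha]
      simp only [inv_inv]
    rw [h4]
    push_cast
    rw [div_pow, div_le_div_iff₀ (by positivity) hn0]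
    calc (∑ i, b i) ^ 2 * ((m : ℝ) + 1) ≤ (((m : ℝ) + 1) * ∑ i, b i ^ 2) * ((m : ℝ) + 1) :=
          mul_le_mul_of_nonneg_right h3 hn0.le
      _ = _ := by ring
  have hma0 : 0 ≤ ma a := by
    rw [ema]
    positivity
  have step3 : ((∑ i, b i) / ((m : ℝ) + 1)) * ((∑ i, a i ^ 2) / ((m : ℝ) + 1)) ≤
      (∏ i, a i) ^ (m + 1) * ((∑ i, b i) / ((m : ℝ) + 1)) ^ ((m + 1) ^ 2 - 1) := by
    rw [← ema, mul_comm]
    rw [emb] at hstar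
    exact (mul_le_mul_of_nonneg_left hmq hma0).trans hstar
  have hP : 0 < ∏ i, a i := Finset.prod_pos fun i _ => ha0 i
  have hDR : D = R * ∏ i, a i := by
    rw [hR, ha, Finset.prod_inv_distrib]
    have h3 : (∏ j, b j) ≠ 0 := (Finset.prod_pos fun i _ => hb i).ne'
    field_simp
  have step4 : R ^ 2 * (∏ i, a i) ^ (m + 1) ≤ D ^ (m + 1) := by
    have h3 : D ^ (m + 1) = R ^ (m + 1) * (∏ i, a i) ^ (m + 1) := by
      conv_lhs => rw [hDR]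
      rw [mul_pow]
    rw [h3]
    refine mul_le_mul_of_nonneg_right ?_ (pow_nonneg hP.le _)
    exact pow_le_pow_right₀ h2 (by omega)
  have hx0 : 0 ≤ ((∑ i, b i) / ((m : ℝ) + 1)) ^ ((m + 1) ^ 2 - 1) := by positivity
  have hQ : 0 ≤ (((m : ℝ) + 1) * (m + 3) / 3) := by positivity
  calc ∑ i, b i * (2 / 3 * α i ^ 2 + (∑ j, α j ^ 2) / 3)
      ≤ R ^ 2 * ((2 / 3) * ∑ i, a i + (∑ i, b i) * (∑ i, a i ^ 2) / 3) := step1
    _ ≤ R ^ 2 * ((((m : ℝ) + 1) * (m + 3) / 3) *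
        (((∑ i, b i) / ((m : ℝ) + 1)) * ((∑ i, a i ^ 2) / ((m : ℝ) + 1)))) :=
        mul_le_mul_of_nonneg_left step2 (sq_nonneg _)
    _ ≤ R ^ 2 * ((((m : ℝ) + 1) * (m + 3) / 3) *
        ((∏ i, a i) ^ (m + 1) * ((∑ i, b i) / ((m : ℝ) + 1)) ^ ((m + 1) ^ 2 - 1))) :=
        mul_le_mul_of_nonneg_left (mul_le_mul_of_nonneg_left step3 hQ) (sq_nonneg _)
    _ = (((m : ℝ) + 1) * (m + 3) / 3) * ((R ^ 2 * (∏ i, a i) ^ (m + 1)) *
        ((∑ i, b i) / ((m : ℝ) + 1)) ^ ((m + 1) ^ 2 - 1)) := by ring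
    _ ≤ _ := mul_le_mul_of_nonneg_left (mul_le_mul_of_nonneg_right step4 hx0) hQ

/-- PROOF: with `a i = 1 / b i`, `R = D * ∏ b ≥ 1`: `α i ≤ R * a i`, so (monotonicity, `N = n ^ 2 - 1`,
`k = (n - 2) (n + 1)`, `k - N + 1 = -n`, `n = m + 1 ≥ 3`) the left side is at most
`R ^ (2 - n) * (∏ a) ^ (-n) * ...` with `α` replaced by `a`, i.e. it is at most the value for `R = 1`, `α = a`;
Chebyshev: `∑ b i (a i ^ 2 + ∑ j ≠ i, a j ^ 2 / 3) = (2/3) ∑ b i a i ^ 2 + (1/3) (∑ b) (∑ a ^ 2)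
≤ (n + 2) / (3 n) * (∑ b) * (∑ a ^ 2)`, and `ma a ≤ (∏ a) ^ n * mb a ^ (N - 1)` from `star_le` and `mb a ≤ mq a`. -/
theorem real_par {m : ℕ} (hm : 2 ≤ m) {κ D : ℝ} (hκ : 0 < κ) (hD : 0 < D) {b α : Fin (m + 1) → ℝ}
    (hb : ∀ i, 0 < b i) (hα : ∀ i, 0 ≤ α i) (h1 : ∀ i, α i ≤ D * ∏ j ∈ Finset.univ.erase i, b j)
    (h2 : 1 ≤ D * ∏ j, b j) :
    (2 ^ (m + 1) * D) ^ ((m + 1 - 2) * (m + 1 + 1)) / (κ * (D * 2 ^ (m + 1) * ∑ i, b i)) ^ ((m + 1) ^ 2 - 1) *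
        (κ * (D * 2 ^ (m + 1) * ∑ i, b i * (2 / 3 * α i ^ 2 + (∑ j, α j ^ 2) / 3))) ≤
      (2 ^ (m + 1)) ^ ((m + 1 - 2) * (m + 1 + 1)) / (κ * (2 ^ (m + 1) * (m + 1))) ^ ((m + 1) ^ 2 - 1) *
        (κ * (2 ^ (m + 1) * ((m + 1) * (m + 3) / 3))) := by
  have hmain := RealE_main hm hD hb hα h1 h2
  have hexp := RealE_exp hm
  set S := ∑ i, b i * (2 / 3 * α i ^ 2 + (∑ j, α j ^ 2) / 3) with hS
  set B := ∑ i, b i with hBd
  have hB : 0 < B := Finset.sum_pos (fun i _ => hb i) Finset.univ_nonempty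
  set K := (m + 1 - 2) * (m + 1 + 1) with hK
  set M := (m + 1) ^ 2 - 1 with hMd
  set W : ℝ := 2 ^ (m + 1) with hW
  have hW0 : 0 < W := by positivity
  have hn0 : (0 : ℝ) < (m : ℝ) + 1 := by positivity
  have hX : 0 ≤ W ^ K * (κ * W) / (κ ^ M * W ^ M) := by positivity
  have e1 : (W * D) ^ K / (κ * (D * W * B)) ^ M * (κ * (D * W * S)) =
      W ^ K * (κ * W) / (κ ^ M * W ^ M) * (S / (D ^ (m + 1) * B ^ M)) := by
    have h3 : D ^ M = D ^ K * D * D ^ (m + 1) := by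
      rw [hexp, pow_add, pow_add, pow_one]
    rw [mul_pow, mul_pow, mul_pow, mul_pow, h3]
    have hDK : D ^ K ≠ 0 := (pow_pos hD _).ne'
    have hDn : D ^ (m + 1) ≠ 0 := (pow_pos hD _).ne'
    have hκM : κ ^ M ≠ 0 := (pow_pos hκ _).ne'
    have hWM : W ^ M ≠ 0 := (pow_pos hW0 _).ne'
    have hBM : B ^ M ≠ 0 := (pow_pos hB _).ne'
    have hD' : D ≠ 0 := hD.ne'
    generalize D ^ K = d1 at hDK ⊢
    generalize D ^ (m + 1) = d2 at hDn ⊢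
    generalize κ ^ M = c1 at hκM ⊢
    generalize W ^ M = w1 at hWM ⊢
    generalize B ^ M = b1 at hBM ⊢
    generalize W ^ K = w2
    field_simp
  have e2 : W ^ K / (κ * (W * ((m : ℝ) + 1))) ^ M * (κ * (W * (((m : ℝ) + 1) * (m + 3) / 3))) =
      W ^ K * (κ * W) / (κ ^ M * W ^ M) * ((((m : ℝ) + 1) * (m + 3) / 3) / ((m : ℝ) + 1) ^ M) := by
    rw [mul_pow, mul_pow]
    have hκM : κ ^ M ≠ 0 := (pow_pos hκ _).ne'
    have hWM : W ^ M ≠ 0 := (pow_pos hW0 _).ne'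
    have hnM : ((m : ℝ) + 1) ^ M ≠ 0 := (pow_pos hn0 _).ne'
    generalize κ ^ M = c1 at hκM ⊢
    generalize W ^ M = w1 at hWM ⊢
    generalize ((m : ℝ) + 1) ^ M = n1 at hnM ⊢
    generalize W ^ K = w2
    field_simp
  rw [e1, e2]
  refine mul_le_mul_of_nonneg_left ?_ hX
  rw [div_le_div_iff₀ (by positivity) (by positivity)]
  have h3 : (B / ((m : ℝ) + 1)) ^ M * ((m : ℝ) + 1) ^ M = B ^ M := by
    rw [← mul_pow, div_mul_cancel₀ _ hn0.ne']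
  calc S * ((m : ℝ) + 1) ^ M
      ≤ ((((m : ℝ) + 1) * (m + 3) / 3) * (D ^ (m + 1) * (B / ((m : ℝ) + 1)) ^ M)) * ((m : ℝ) + 1) ^ M :=
        mul_le_mul_of_nonneg_right hmain (by positivity)
    _ = (((m : ℝ) + 1) * (m + 3) / 3) * (D ^ (m + 1) * ((B / ((m : ℝ) + 1)) ^ M * ((m : ℝ) + 1) ^ M)) := by
        ring
    _ = _ := by rw [h3]

end BM939
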