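import Pool.Agent.Lib.MP_939ffc_anE.ParR
import Pool.Agent.Lib.MP_939ffc_anE.RealE
import Pool.Agent.Lib.MP_939ffc_anD.Cent
import Pool.Agent.Lib.MP_939ffc_anD.SymApprox
import Pool.Agent.Lib.MP_939ffc_anD.Cube2
import Pool.Agent.Lib.MP_939ffc_anD.Iso
import Pool.Agent.Lib.MP_939ffc_anC.Main3

/-!
# MP_939ffc_an: parallelepipeds
-/

open MeasureTheory Set Metric Filter Topology
open scoped ENNReal NNReal Pointwise
open Pool.Agent.Lib.MP_deb14e_an Pool.Agent.MPdeb14eM

namespace BM939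

theorem convexDomain_lin {n : ℕ} (L : E n ≃ₗ[ℝ] E n) {K : Set (E n)} (hK : ConvexDomain K) :
    ConvexDomain (L '' K) := by
  obtain ⟨h1, h2, h3, h4⟩ := hK
  refine ⟨h1.image _, ?_, ?_, h4.linear_image (L : E n →ₗ[ℝ] E n)⟩
  · have := (L.toContinuousLinearEquiv : E n →L[ℝ] E n).lipschitz.isBounded_image h2
    exact this
  · exact (L.toContinuousLinearEquiv.toHomeomorph.isOpenMap) K h3

theorem adet_pos {n : ℕ} (L : E n ≃ₗ[ℝ] E n) : 0 < adet L := by
  unfold adet
  exact abs_pos.2 (LinearEquiv.isUnit_det' L).ne_zero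

theorem bet_ne {n : ℕ} (L : E n ≃ₗ[ℝ] E n) (i : Fin n) : 0 < ‖bet L i‖ := by
  refine norm_pos_iff.2 fun h => ?_
  have h1 := bet_inner L i (ev i)
  rw [h, inner_zero_left] at h1
  simp [ev] at h1

theorem bet_refl {n : ℕ} (i : Fin n) : bet (LinearEquiv.refl ℝ (E n)) i = ev i := by
  refine ext_inner_right ℝ fun v => ?_
  have h := bet_inner (LinearEquiv.refl ℝ (E n)) i v
  rw [LinearEquiv.refl_apply] at h
  rw [h]
  unfold ev
  rw [EuclideanSpace.inner_single_left]
  simp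

theorem norm_ev {n : ℕ} (i : Fin n) : ‖(ev i : E n)‖ = 1 := by
  simp [ev]

/-- Among all parallelepipeds the cube has the largest value. -/
theorem main6_le {m : ℕ} (hm : 2 ≤ m) (L : E (m + 1) ≃ₗ[ℝ] E (m + 1)) :
    calF (L '' cube (m + 1)) ≤ calF (cube (m + 1)) := by
  have hh : 0 < hausdorffConst (m : ℝ) := hausdorffConst_pos (Nat.cast_nonneg m)
  have hk : 0 < kap m := kap_pos m
  have hcube := convexDomain_cube (m + 1)
  have hdom := convexDomain_lin L hcube
  have hD := adet_pos L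
  have hP : perimeter (m + 1) (L '' cube (m + 1)) =
      hausdorffConst m * kap m * (adet L * 2 ^ (m + 1) * ∑ i, ‖bet L i‖) := by
    rw [perimeter_eq, ← Main_bd_zero, par_bd0]
    ring
  have hM : momentum (L '' cube (m + 1)) 0 = hausdorffConst m * kap m * (adet L * 2 ^ (m + 1) *
      ∑ i, ‖bet L i‖ * (2 / 3 * ‖L (ev i)‖ ^ 2 + (∑ j, ‖L (ev j)‖ ^ 2) / 3)) := by
    rw [Main_momentum_zero, par_bd2]
    ring
  have hV := par_vol L
  -- the cube
  have hD1 : adet (LinearEquiv.refl ℝ (E (m + 1))) = 1 := by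
    unfold adet
    simp
  have himg : (LinearEquiv.refl ℝ (E (m + 1))) '' cube (m + 1) = cube (m + 1) := by
    ext x
    simp
  have hb1 : ∀ i, ‖bet (LinearEquiv.refl ℝ (E (m + 1))) i‖ = 1 := fun i => by
    rw [bet_refl, norm_ev]
  have ha1 : ∀ i, ‖(LinearEquiv.refl ℝ (E (m + 1))) (ev i)‖ = 1 := fun i => by
    rw [LinearEquiv.refl_apply, norm_ev]
  have hP1 : perimeter (m + 1) (cube (m + 1)) = hausdorffConst m * kap m * (2 ^ (m + 1) * (m + 1)) := by
    have h := par_bd0 (LinearEquiv.refl ℝ (E (m + 1)))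
    rw [himg, hD1] at h
    simp only [hb1, Finset.sum_const, Finset.card_univ, Fintype.card_fin, nsmul_eq_mul, mul_one] at h
    rw [perimeter_eq, ← Main_bd_zero, h]
    push_cast
    ring
  have hM1 : momentum (cube (m + 1)) 0 =
      hausdorffConst m * kap m * (2 ^ (m + 1) * ((m + 1) * (m + 3) / 3)) := by
    have h := par_bd2 (LinearEquiv.refl ℝ (E (m + 1)))
    rw [himg, hD1] at h
    simp only [hb1, ha1, Finset.sum_const, Finset.card_univ, Fintype.card_fin, nsmul_eq_mul,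
      mul_one, one_pow] at h
    rw [Main_momentum_zero, h]
    push_cast
    ring
  have hV1 : (volume (cube (m + 1))).toReal = 2 ^ (m + 1) := by
    rw [vol_cube, ENNReal.toReal_ofReal (by positivity)]
  have hcubeF : (2 ^ (m + 1)) ^ ((m + 1 - 2) * (m + 1 + 1)) /
      (hausdorffConst m * kap m * (2 ^ (m + 1) * (m + 1))) ^ ((m + 1) ^ 2 - 1) *
      (hausdorffConst m * kap m * (2 ^ (m + 1) * ((m + 1) * (m + 3) / 3))) ≤ calF (cube (m + 1)) := by
    unfold calF
    rw [hV1, hP1, ← hM1]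
    refine mul_le_mul_of_nonneg_left ?_ (by positivity)
    exact le_ciInf fun x₀ => momentum_zero_le hcube (fun x hx => neg_mem_of_sym (sym_cube _) hx) x₀
  refine le_trans ?_ hcubeF
  have h1 : ⨅ x₀ : E (m + 1), momentum (L '' cube (m + 1)) x₀ ≤ momentum (L '' cube (m + 1)) 0 :=
    ciInf_le ⟨0, by rintro _ ⟨x, rfl⟩; exact Main_momentum_nonneg _ x⟩ 0
  have hP'' : 0 < perimeter (m + 1) (L '' cube (m + 1)) := perimeter_pos hdom
  unfold calF
  calc (volume (L '' cube (m + 1))).toReal ^ ((m + 1 - 2) * (m + 1 + 1)) /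
        perimeter (m + 1) (L '' cube (m + 1)) ^ ((m + 1) ^ 2 - 1) *
        ⨅ x₀ : E (m + 1), momentum (L '' cube (m + 1)) x₀
      ≤ (volume (L '' cube (m + 1))).toReal ^ ((m + 1 - 2) * (m + 1 + 1)) /
        perimeter (m + 1) (L '' cube (m + 1)) ^ ((m + 1) ^ 2 - 1) *
        momentum (L '' cube (m + 1)) 0 := mul_le_mul_of_nonneg_left h1 (by positivity)
    _ ≤ _ := by
      rw [hV, hP, hM]
      exact real_par hm (mul_pos hh hk) hD (fun i => bet_ne L i) (fun i => norm_nonneg _)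
        (fun i => had1 L i) (had2 (Nat.succ_pos m) L)

end BM939
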