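import Pool.Agent.Lib.MP_939ffc_anE.Defs
import Pool.Agent.Lib.MP_939ffc_anD.PolyU
import Pool.Agent.Lib.MP_939ffc_anD.PolyL
import Pool.Agent.Lib.MP_939ffc_anE.Had
import Pool.Agent.Lib.MP_939ffc_anE.Lin

open MeasureTheory Set Metric Filter Topology
open scoped ENNReal NNReal Pointwise
open Pool.Agent.Lib.MP_deb14e_an Pool.Agent.MPdeb14eM

namespace BM939

/-- The finite set `± β i`. PROOF of the formula below: `L '' cube = poly (betS L)`, `coneOn (facet (betS L) (β i)) =
L '' cubeCone i` (use `coneOn_facet` and `bet_inner`), the cone of `-β i` is its reflection, `betS L` is the disjoint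
union of the injective images of `Fin n`, and `bd_poly_le_sum`, `sum_le_bd_poly`. -/
noncomputable def betS {n : ℕ} (L : E n ≃ₗ[ℝ] E n) : Finset (E n) := by
  classical
  exact Finset.univ.image (fun i => bet L i) ∪ Finset.univ.image (fun i => -bet L i)

private theorem par_mem {n : ℕ} (L : E n ≃ₗ[ℝ] E n) (b : E n) :
    b ∈ betS L ↔ (∃ i, bet L i = b) ∨ ∃ i, -bet L i = b := by
  classical
  unfold betS
  rw [Finset.mem_union, Finset.mem_image, Finset.mem_image]
  simp

private theorem par_inj {n : ℕ} (L : E n ≃ₗ[ℝ] E n) : Function.Injective (fun i => bet L i) := by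
  intro i j hij
  have hij' : bet L i = bet L j := hij
  by_contra hne
  have h1 := bet_inner L i (ev i)
  have h2 := bet_inner L j (ev i)
  rw [hij', h2] at h1
  unfold ev at h1
  rw [PiLp.single_apply, PiLp.single_apply, if_neg (fun h => hne h.symm),
    if_pos rfl] at h1
  exact zero_ne_one h1

private theorem par_disj {n : ℕ} (L : E n ≃ₗ[ℝ] E n) (i j : Fin n) : bet L i ≠ -bet L j := by
  intro h
  have h1 := bet_inner L i (WithLp.toLp 2 fun _ => (1 : ℝ))
  rw [h, inner_neg_left, bet_inner] at h1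
  have h2 : -(1 : ℝ) = 1 := h1
  norm_num at h2

private theorem par_sum {n : ℕ} (L : E n ≃ₗ[ℝ] E n) (g : E n → ℝ≥0∞) :
    ∑ a ∈ betS L, g a = ∑ i, (g (bet L i) + g (-bet L i)) := by
  classical
  unfold betS
  rw [Finset.sum_union, Finset.sum_image, Finset.sum_image, ← Finset.sum_add_distrib]
  · intro i _ j _ hij
    exact par_inj L (neg_injective hij)
  · intro i _ j _ hij
    exact par_inj L hij
  · rw [Finset.disjoint_left]
    intro a ha hb
    obtain ⟨i, -, hi⟩ := Finset.mem_image.1 ha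
    obtain ⟨j, -, hj⟩ := Finset.mem_image.1 hb
    exact par_disj L i j (hi.trans hj.symm)

private theorem par_poly {n : ℕ} (L : E n ≃ₗ[ℝ] E n) : L '' cube n = poly (betS L) := by
  ext x
  constructor
  · rintro ⟨y, hy, rfl⟩ b hb
    rcases (par_mem L b).1 hb with ⟨i, rfl⟩ | ⟨i, rfl⟩
    · rw [bet_inner]
      exact (abs_lt.1 (hy i)).2
    · rw [inner_neg_left, bet_inner]
      have := (abs_lt.1 (hy i)).1
      linarith
  · intro hx
    refine ⟨L.symm x, fun i => ?_, L.apply_symm_apply x⟩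
    have h1 := hx (bet L i) ((par_mem L _).2 (Or.inl ⟨i, rfl⟩))
    have h2 := hx (-bet L i) ((par_mem L _).2 (Or.inr ⟨i, rfl⟩))
    have h3 := bet_inner L i (L.symm x)
    rw [L.apply_symm_apply] at h3
    rw [inner_neg_left, h3] at h2
    rw [h3] at h1
    rw [abs_lt]
    constructor <;> linarith

private theorem par_cone {n : ℕ} (L : E n ≃ₗ[ℝ] E n) (i : Fin n) :
    coneOn (facet (betS L) (bet L i)) = L '' cubeCone i := by
  rw [coneOn_facet]
  ext x
  constructor
  · rintro ⟨h1, h2, h3⟩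
    have h4 := fun j => bet_inner L j (L.symm x)
    simp only [L.apply_symm_apply] at h4
    rw [h4] at h1 h2 h3
    refine ⟨L.symm x, ⟨h1, h2, fun j => ?_⟩, L.apply_symm_apply x⟩
    have h5 := h3 (bet L j) ((par_mem L _).2 (Or.inl ⟨j, rfl⟩))
    have h6 := h3 (-bet L j) ((par_mem L _).2 (Or.inr ⟨j, rfl⟩))
    rw [inner_neg_left] at h6
    rw [h4] at h5 h6
    rw [abs_le]
    constructor <;> linarith
  · rintro ⟨y, ⟨h1, h2, h3⟩, rfl⟩
    refine ⟨by rw [bet_inner]; exact h1, by rw [bet_inner]; exact h2, fun b hb => ?_⟩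
    rw [bet_inner]
    rcases (par_mem L b).1 hb with ⟨j, rfl⟩ | ⟨j, rfl⟩
    · rw [bet_inner]
      exact (abs_le.1 (h3 j)).2
    · rw [inner_neg_left, bet_inner]
      have := (abs_le.1 (h3 j)).1
      linarith

private theorem par_neg_mem {n : ℕ} (L : E n ≃ₗ[ℝ] E n) {b : E n} (hb : b ∈ betS L) :
    -b ∈ betS L := by
  rcases (par_mem L b).1 hb with ⟨j, rfl⟩ | ⟨j, rfl⟩
  · exact (par_mem L _).2 (Or.inr ⟨j, rfl⟩)
  · exact (par_mem L _).2 (Or.inl ⟨j, by rw [neg_neg]⟩)

private theorem par_mom_neg {n p : ℕ} (L : E n ≃ₗ[ℝ] E n) (i : Fin n) :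
    mom p (coneOn (facet (betS L) (-bet L i))) = mom p (coneOn (facet (betS L) (bet L i))) := by
  have h1 : coneOn (facet (betS L) (-bet L i)) =
      (fun x : E n => -x) ⁻¹' coneOn (facet (betS L) (bet L i)) := by
    rw [coneOn_facet, coneOn_facet]
    ext x
    simp only [mem_ofPred_eq, mem_preimage, inner_neg_left, inner_neg_right]
    constructor
    · rintro ⟨a1, a2, a3⟩
      refine ⟨a1, a2, fun b hb => ?_⟩
      have := a3 (-b) (par_neg_mem L hb)
      rwa [inner_neg_left] at this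
    · rintro ⟨a1, a2, a3⟩
      refine ⟨a1, a2, fun b hb => ?_⟩
      have := a3 (-b) (par_neg_mem L hb)
      rwa [inner_neg_left, neg_neg] at this
  unfold mom
  rw [h1]
  have h2 := (Measure.measurePreserving_neg (volume : Measure (E n))).setLIntegral_comp_preimage
    (measurableSet_coneOn_facet (betS L) (bet L i))
    (f := fun x : E n => ENNReal.ofReal (‖x‖ ^ p))
    (by fun_prop)
  rw [← h2]
  refine lintegral_congr fun x => ?_
  show _ = ENNReal.ofReal (‖-x‖ ^ p)
  rw [norm_neg]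

theorem bd_par {m p : ℕ} (L : E (m + 1) ≃ₗ[ℝ] E (m + 1)) :
    bd p (L '' cube (m + 1)) =
      ∑ i, ENNReal.ofReal (2 * (kap m * (m + 1 + p) * ‖bet L i‖)) * mom p (L '' cubeCone i) := by
  rw [par_poly, le_antisymm (bd_poly_le_sum (p := p) (betS L)) (sum_le_bd_poly (betS L)), par_sum]
  refine Finset.sum_congr rfl fun i _ => ?_
  rw [norm_neg, par_mom_neg, par_cone, ← two_mul, ENNReal.ofReal_mul (by norm_num : (0 : ℝ) ≤ 2),
    ENNReal.ofReal_ofNat]
  ring

end BM939
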