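import Pool.Agent.Lib.MP_939ffc_anE.Par
import Pool.Agent.Lib.MP_939ffc_anE.CubeVol
import Pool.Agent.Lib.MP_939ffc_anE.CubeCross

/-!
# MP_939ffc_an: parallelepipeds: closed formulas
-/

open MeasureTheory Set Metric Filter Topology
open scoped ENNReal NNReal Pointwise
open Pool.Agent.Lib.MP_deb14e_an Pool.Agent.MPdeb14eM

namespace BM939

/-- PROOF: the cube is the preimage of `Set.pi univ (fun _ => Ioo (-1) 1)` under the volume preserving equivalence
with `Fin n → ℝ` (`EuclideanSpace.volume_preserving_...`). -/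
theorem vol_cube (n : ℕ) : volume (cube n) = ENNReal.ofReal (2 ^ n) := by
  have h : cube n = (WithLp.ofLp : E n → (Fin n → ℝ)) ⁻¹'
      (Set.univ.pi fun _ => Ioo (-1 : ℝ) 1) := by
    ext x
    simp only [cube, mem_ofPred_eq, mem_preimage, mem_univ_pi, mem_Ioo, abs_lt]
  rw [h, (PiLp.volume_preserving_ofLp (Fin n)).measure_preimage
    (MeasurableSet.univ_pi fun _ => measurableSet_Ioo).nullMeasurableSet, Real.volume_pi_Ioo]
  rw [← ENNReal.ofReal_prod_of_nonneg (fun i _ => by norm_num)]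
  congr 1
  rw [Finset.prod_const, Finset.card_univ, Fintype.card_fin]
  norm_num

private theorem parR_adet_nonneg {n : ℕ} (L : E n ≃ₗ[ℝ] E n) : 0 ≤ adet L := abs_nonneg _

private theorem parR_measurable_cube (n : ℕ) : MeasurableSet (cube n) :=
  (convexDomain_cube n).2.2.1.measurableSet

/-- PROOF: `lintegral_lin` with `f = 1`, and `vol_cube`. -/
theorem par_vol {n : ℕ} (L : E n ≃ₗ[ℝ] E n) : (volume (L '' cube n)).toReal = 2 ^ n * adet L := by
  have h := lintegral_lin L (parR_measurable_cube n) (f := fun _ => 1) measurable_const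
  rw [setLIntegral_one, setLIntegral_one, vol_cube] at h
  rw [h, ENNReal.toReal_mul, ENNReal.toReal_ofReal (parR_adet_nonneg L),
    ENNReal.toReal_ofReal (by positivity)]
  ring

private theorem parR_mom0 {m : ℕ} (L : E (m + 1) ≃ₗ[ℝ] E (m + 1)) (i : Fin (m + 1)) :
    mom 0 (L '' cubeCone i) = ENNReal.ofReal (adet L * (2 ^ m / (m + 1))) := by
  have h := lintegral_lin L (measurableSet_cubeCone i) (f := fun _ => 1) measurable_const
  rw [setLIntegral_one, setLIntegral_one, vol_cubeCone] at h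
  unfold mom
  simp only [pow_zero, ENNReal.ofReal_one]
  rw [setLIntegral_one, h, ENNReal.ofReal_mul (parR_adet_nonneg L)]

private theorem parR_cone_sub {n : ℕ} (i : Fin n) : cubeCone i ⊆ closure (cube n) := by
  intro y hy
  refine subset_closure fun j => ?_
  exact lt_of_le_of_lt (hy.2.2 j) hy.2.1

private theorem parR_int {n : ℕ} (i : Fin n) {f : E n → ℝ} (hf : Continuous f) :
    IntegrableOn f (cubeCone i) :=
  (hf.continuousOn.integrableOn_compact (convexDomain_cube n).2.1.isCompact_closure).mono_set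
    (parR_cone_sub i)

private theorem parR_contL {n : ℕ} (L : E n ≃ₗ[ℝ] E n) : Continuous fun y : E n => L y :=
  (L : E n →ₗ[ℝ] E n).continuous_of_finiteDimensional

private theorem parR_mom2 {m : ℕ} (L : E (m + 1) ≃ₗ[ℝ] E (m + 1)) (i : Fin (m + 1)) :
    mom 2 (L '' cubeCone i) = ENNReal.ofReal (adet L * (2 ^ m / (m + 3) *
      (2 / 3 * ‖L (ev i)‖ ^ 2 + (∑ j, ‖L (ev j)‖ ^ 2) / 3))) := by
  have h := lintegral_lin L (measurableSet_cubeCone i)
    (f := fun x => ENNReal.ofReal (‖x‖ ^ 2)) (by fun_prop)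
  unfold mom
  rw [h]
  have hint : IntegrableOn (fun y : E (m + 1) => ‖L y‖ ^ 2) (cubeCone i) :=
    parR_int i ((parR_contL L).norm.pow 2)
  rw [← ofReal_integral_eq_lintegral_ofReal hint (ae_of_all _ fun y => by positivity),
    norm_cubeCone, ← ENNReal.ofReal_mul (parR_adet_nonneg L)]
  congr 2
  have h1 : ∀ j : Fin (m + 1), ‖L (ev j)‖ ^ 2 * ∫ y in cubeCone i, (y j) ^ 2 =
      2 ^ m / (3 * ((m : ℝ) + 3)) * ‖L (ev j)‖ ^ 2 +
        (if j = i then 2 ^ m / (m + 3) * (2 / 3 * ‖L (ev j)‖ ^ 2) else 0) := by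
    intro j
    have hm : (0 : ℝ) < (m : ℝ) + 3 := by positivity
    rw [sq_cubeCone]
    split_ifs with hji
    · field_simp
      ring
    · ring
  rw [Finset.sum_congr rfl fun j _ => h1 j, Finset.sum_add_distrib, ← Finset.mul_sum,
    Finset.sum_ite_eq' Finset.univ i]
  simp only [Finset.mem_univ, if_true]
  have hm : (0 : ℝ) < (m : ℝ) + 3 := by positivity
  field_simp
  ring

/-- PROOF: `bd_par` with `p = 0`, `lintegral_lin`, `vol_cubeCone`. -/
theorem par_bd0 {m : ℕ} (L : E (m + 1) ≃ₗ[ℝ] E (m + 1)) :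
    (bd 0 (L '' cube (m + 1))).toReal = kap m * (adet L * 2 ^ (m + 1) * ∑ i, ‖bet L i‖) := by
  have hk : 0 < kap m := kap_pos m
  have ha := parR_adet_nonneg L
  rw [bd_par, ENNReal.toReal_sum (fun i _ => by
    rw [parR_mom0]; exact ENNReal.mul_ne_top ENNReal.ofReal_ne_top ENNReal.ofReal_ne_top),
    Finset.mul_sum, Finset.mul_sum]
  refine Finset.sum_congr rfl fun i _ => ?_
  have hm : (0 : ℝ) < (m : ℝ) + 1 := by positivity
  have h1 : (0 : ℝ) ≤ 2 * (kap m * (m + 1 + (0 : ℕ)) * ‖bet L i‖) := by positivity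
  rw [parR_mom0, ENNReal.toReal_mul, ENNReal.toReal_ofReal h1, ENNReal.toReal_ofReal (by positivity)]
  push_cast
  field_simp
  ring

/-- PROOF: `bd_par` with `p = 2`, `lintegral_lin`, `norm_cubeCone`, `sq_cubeCone` (the cone is bounded, so the
integral of `‖L y‖ ^ 2` is finite, `ofReal_integral_eq_lintegral_ofReal`); `∑ j, α j ^ 2 * c i j` with
`c i i = 2 ^ m / (m + 3)`, `c i j = 2 ^ m / (3 (m + 3))` is `2 ^ m / (m + 3) * (2 / 3 * α i ^ 2 + (∑ j, α j ^ 2) / 3)`. -/
theorem par_bd2 {m : ℕ} (L : E (m + 1) ≃ₗ[ℝ] E (m + 1)) :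
    (bd 2 (L '' cube (m + 1))).toReal = kap m * (adet L * 2 ^ (m + 1) *
      ∑ i, ‖bet L i‖ * (2 / 3 * ‖L (ev i)‖ ^ 2 + (∑ j, ‖L (ev j)‖ ^ 2) / 3)) := by
  have hk : 0 < kap m := kap_pos m
  have ha := parR_adet_nonneg L
  rw [bd_par, ENNReal.toReal_sum (fun i _ => by
    rw [parR_mom2]; exact ENNReal.mul_ne_top ENNReal.ofReal_ne_top ENNReal.ofReal_ne_top),
    Finset.mul_sum, Finset.mul_sum]
  refine Finset.sum_congr rfl fun i _ => ?_
  have hm : (0 : ℝ) < (m : ℝ) + 3 := by positivity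
  have h1 : (0 : ℝ) ≤ 2 * (kap m * (m + 1 + (2 : ℕ)) * ‖bet L i‖) := by positivity
  have h2 : (0 : ℝ) ≤ ∑ j, ‖L (ev j)‖ ^ 2 := Finset.sum_nonneg fun j _ => by positivity
  rw [parR_mom2, ENNReal.toReal_mul, ENNReal.toReal_ofReal h1, ENNReal.toReal_ofReal (by positivity)]
  have h3 : ((m : ℝ) + 1 + (2 : ℕ)) = (m : ℝ) + 3 := by push_cast; ring
  rw [h3]
  generalize (∑ j, ‖L (ev j)‖ ^ 2) = S
  field_simp
  ring

end BM939
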